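import Pool.Agent.N783.CF.Stm
import Pool.Agent.N99.PF.Main

/-!
# CF/FAMQ (helper570): many irreducible polynomials with squarefree discriminant
(adapted from `Pool/Agent/N99/PF/Main.lean` of helper99)
-/

set_option autoImplicit false
set_option linter.all false

open Polynomial NumberField
open scoped Classical

namespace Pool.Agent.N570.CF

open Pool.Agent.N783.PF
open Pool.Agent.N783.CF (Two S_FAMQ)
open Pool.Agent.N352.PJ (dd)
open Pool.Agent.N99.PF (ht_card good_card)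

/-- FAMQ -/
theorem t_FAMQ (h0 : Pool.Agent.N783.PF.S_PTS) (h1 : Pool.Agent.N783.PF.S_FAM)
    (h2 : Pool.Agent.N783.PF.S_BAD) (h3 : Pool.Agent.N783.PF.S_EXS)
    (h4 : Pool.Agent.N783.PF.S_SQF) (h5 : Pool.Agent.N783.PF.S_IRR) :
    Pool.Agent.N783.CF.S_FAMQ := by
  intro g F _ _ hg
  obtain ⟨κ, hsq⟩ := h4 g F hg
  obtain ⟨C, K, hbad⟩ := h2 F g κ hg
  obtain ⟨W, f₁, hKW, hf₁, c, hc, hfam⟩ := h1 F g hg (max K κ)
  obtain ⟨-, Cp, hCp, -, hpt⟩ := h0 F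
  set D : ℕ := Module.finrank ℚ F * dd g with hD
  obtain ⟨m, hm1, hm⟩ : ∃ m : ℕ, 1 ≤ m ∧ 2 * (C * (4 * 2 ^ κ : ℝ) ^ D) / c < 2 ^ m := by
    obtain ⟨m, hm⟩ : ∃ m : ℕ, 2 * (C * (4 * 2 ^ κ : ℝ) ^ D) / c < 2 ^ m :=
      pow_unbounded_of_one_lt _ (by norm_num)
    refine ⟨m + 1, by omega, hm.trans_le ?_⟩
    exact pow_le_pow_right₀ (by norm_num) (by omega)
  obtain ⟨S, 𝔮, h, P, hS, hcard⟩ := h3 F g W hg m
  obtain ⟨B₁₀, hB₁₀⟩ := hfam S 𝔮 h P hS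
  obtain ⟨N₀, hN₀⟩ := hbad W S 𝔮 h P ((le_max_left _ _).trans hKW) hS
  have hq1 : ∀ q ∈ S, 1 ≤ q := fun q hq => (hS q hq).1.pos
  set Pn : ℕ := (∏ q ∈ S, q ^ (2 * g)) ^ Module.finrank ℚ F with hPn
  have hP0 : (0 : ℝ) < Pn := by
    have : 0 < Pn := pow_pos (Finset.prod_pos fun q hq => pow_pos (hq1 q hq) _) _
    exact_mod_cast this
  refine ⟨c / 2 / Pn, by positivity, max (max B₁₀ (4 ^ N₀)) 1, fun B hB => ?_⟩
  have hB1 : 1 ≤ B := (le_max_right _ _).trans hB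
  have hb2 : B₁₀ ≤ B := ((le_max_left _ _).trans (le_max_left _ _)).trans hB
  have hb3 : 4 ^ N₀ ≤ B := ((le_max_right _ _).trans (le_max_left _ _)).trans hB
  obtain ⟨N, hNa, hNb⟩ : ∃ N : ℕ, 2 ^ κ * B ≤ 4 ^ N ∧ 4 ^ N ≤ 4 * (2 ^ κ * B) := by
    refine ⟨Nat.log 4 (2 ^ κ * B) + 1, (Nat.lt_pow_succ_log_self (by norm_num) _).le, ?_⟩
    rw [pow_succ, mul_comm]
    refine Nat.mul_le_mul_left 4 (Nat.pow_log_le_self 4 ?_)
    positivity
  have hNN : N₀ ≤ N := by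
    have e1 : 4 ^ N₀ ≤ 4 ^ N := hb3.trans (le_trans (Nat.le_mul_of_pos_left _ (by positivity)) hNa)
    exact (Nat.pow_le_pow_iff_right (by norm_num)).1 e1
  obtain ⟨hfin, hBd⟩ := hN₀ N hNN
  have hHt := (ht_card hCp hpt g B hB1).1
  refine ⟨hHt, ?_⟩
  set H := {f : (𝓞 F)[X] | Ht g B f ∧ Irreducible (fF f) ∧ SqF g f ∧ Two g f} with hH
  set G := {f : (𝓞 F)[X] | Fam g B W f₁ S P f} \ {f : (𝓞 F)[X] | LBad g N κ S 𝔮 P f} with hGdef
  have hHf : H.Finite := hHt.subset fun f hf => hf.1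
  have hG : c / 2 * (B : ℝ) ^ D ≤ Pn * (G.ncard : ℝ) := by
    refine good_card (C := C) (m := m) (κ := κ) hc hP0 B N (hB₁₀ B hb2) hfin ?_ hm ?_
    · rw [hcard] at hBd
      have e2 : Module.finrank ℚ F * (2 * N * dd g) = 2 * N * D := by rw [hD]; ring
      rw [e2] at hBd
      exact_mod_cast hBd
    · exact_mod_cast hNb
  obtain ⟨q, hq⟩ : S.Nonempty := by
    rw [← Finset.card_pos]
    omega
  obtain ⟨hqp, -, -, -, -, h𝔮p, hq𝔮, hhm, hhd, hhirr, -, -, -, hACg, -⟩ := hS q hq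
  have hne : 𝔮 q ≠ ⊥ := by
    intro hbot
    rw [hbot, Ideal.mem_bot] at hq𝔮
    have : q = 0 := by exact_mod_cast hq𝔮
    exact hqp.ne_zero this
  have hsub : G ⊆ H := by
    intro f hf
    have hF : Fam g B W f₁ S P f := hf.1
    have hirr : Irreducible (fF f) := h5 F g W f₁ f hf₁ hF.one hF.ht.mon hF.ht.deg
    refine ⟨hF.ht, hirr, ?_, ?_⟩
    · exact hsq B N W f₁ S 𝔮 h P f ((le_max_right _ _).trans hKW) hf₁ hS hF hirr hNa hB1 hf.2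
    · refine ⟨𝔮 q, h q, h𝔮p, hne, hhm, hhd, hhirr, ?_⟩
      intro j
      have e1 : f.coeff j - (P q).coeff j ∈ 𝔮 q :=
        (Ideal.span_singleton_le_iff_mem (𝔮 q)).2 hq𝔮 (hF.con q hq j)
      have e2 := (𝔮 q).add_mem e1 (hACg j)
      rwa [sub_add_sub_cancel] at e2
  have hle : (G.ncard : ℝ) ≤ H.ncard := by
    exact_mod_cast Set.ncard_le_ncard hsub hHf
  calc c / 2 / Pn * (B : ℝ) ^ D = c / 2 * (B : ℝ) ^ D / Pn := by ring
    _ ≤ (Pn * (G.ncard : ℝ)) / Pn := by gcongr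
    _ = G.ncard := by field_simp
    _ ≤ H.ncard := hle

end Pool.Agent.N570.CF
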